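import Pool.Agent.Helper47.DS.Defs

/-!
# The turn at the end of a band (Theorem D* for MP_5165fa, row GEO-B)
-/

open Set BIC

namespace BICS

/-- the vertex number `i` of the lane `h` in the turn: right to the column `r`, up to the height
`w + r`, left -/
def tv (w h r i : ℕ) : ℕ × ℕ :=
  if i ≤ r then (i, h) else if i ≤ w + 2 * r - h then (r, h + (i - r))
    else (w + 3 * r - h - i, w + r)

lemma tv_adj {w h r i : ℕ} (hw : h ≤ w + r) (hi : i + 1 ≤ w + 3 * r - h) :
    adj (tv w h r i) (tv w h r (i + 1)) := by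
  unfold tv
  split_ifs <;> unfold adj <;> simp only [true_and, true_or, or_true] <;> omega

lemma tv_inj {w h r i j : ℕ} (hw : h ≤ w + r) (hw' : 1 ≤ w + r - h)
    (hi : i ≤ w + 3 * r - h) (hj : j ≤ w + 3 * r - h) (e : tv w h r i = tv w h r j) :
    i = j := by
  unfold tv at e
  split_ifs at e <;> rw [Prod.mk.injEq] at e <;> omega

lemma tv_disj {w h h' k i j : ℕ} (hw : k ≤ w) (hh' : h' < k) (hne : h < h')
    (e : tv w h (k - 1 - h) i = tv w h' (k - 1 - h') j) : False := by
  unfold tv at e
  split_ifs at e <;> rw [Prod.mk.injEq] at e <;> omega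

lemma tv_mem {w h k i : ℕ} (hw : k ≤ w) (hh : h < k) :
    tv w h (k - 1 - h) i ∈ rect 0 0 k (2 * w) := by
  unfold tv
  split_ifs <;> refine ⟨?_, ?_, ?_, ?_⟩ <;> simp only <;> omega

/-- ROW GEO-B. The turn at the end of a band. -/
theorem turnStmt (k w : ℕ) (hw : k ≤ w) : TurnStmt k w := by
  refine ⟨fun h => (List.range (w + 3 * (k - 1 - (h : ℕ)) - h + 1)).map
    (tv w h (k - 1 - (h : ℕ))), fun h => ⟨⟨?_, ?_⟩, ?_, ?_, ?_⟩, ?_⟩
  · rw [List.isChain_iff_getElem]
    intro i hi
    simp only [List.length_map, List.length_range] at hi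
    simp only [List.getElem_map, List.getElem_range]
    have := h.2
    exact tv_adj (by omega) (by omega)
  · rw [List.nodup_map_iff_inj_on List.nodup_range]
    intro i hi j hj e
    rw [List.mem_range] at hi hj
    have := h.2
    exact tv_inj (by omega) (by omega) (by omega) (by omega) e
  · simp only
    rw [List.range_succ_eq_map]
    simp [tv]
  · simp only
    rw [List.range_succ]
    have := h.2
    simp only [List.map_append, List.map_cons, List.map_nil, List.getLast?_append,
      List.getLast?_singleton, Option.some_or, Option.some.injEq]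
    unfold tv
    split_ifs <;> rw [Prod.mk.injEq] <;> omega
  · intro v hv
    rw [List.mem_map] at hv
    obtain ⟨i, hi, rfl⟩ := hv
    exact tv_mem hw h.2
  · intro h h' hne v hv hv'
    rw [List.mem_map] at hv hv'
    obtain ⟨i, hi, rfl⟩ := hv
    obtain ⟨j, hj, e⟩ := hv'
    have h1 := h.2
    have h2 := h'.2
    rcases lt_or_gt_of_ne (fun e : (h : ℕ) = h' => hne (Fin.ext e)) with h3 | h3
    · exact tv_disj hw h2 h3 e.symm
    · exact tv_disj hw h1 h3 e

end BICS
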